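import Pool.Agent.Lib.MP_af815a_al.Centralizer

set_option autoImplicit false

/-!
Large admissible subsets in groups which have a section of full cardinality with the minimal
condition on (large) centralizers.
-/

universe u

open Cardinal

namespace Pool.Agent.Results.MP_af815a_al.CentralizerCondition

/-- Let `G` be an infinite group, `N ◁ K ≤ G` with `|K/N| = |G|`, and let `lam < |G|` be a
cardinal such that every nonempty family of centralizers of subsets of `K/N`, all of cardinality
greater than `lam`, has a minimal member. Then `G` has an admissible subset of the same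
cardinality as `G`. -/
theorem result (G : Type u) [Group G] [Infinite G] (K : Subgroup G) (N : Subgroup K) [N.Normal]
    (hcard : #(K ⧸ N) = #G) (lam : Cardinal.{u}) (hlam : lam < #G)
    (hmin : ∀ F : Set (Set (K ⧸ N)), F.Nonempty → (∀ S ∈ F, lam < #(Set.centralizer S)) →
      ∃ S ∈ F, ∀ T ∈ F, Set.centralizer T ⊆ Set.centralizer S →
        Set.centralizer T = Set.centralizer S) :
    ∃ H : Set G, #H = #G ∧ ∀ x ∈ H, ∀ y ∈ H, ∀ z ∈ H, x⁻¹ * y = y⁻¹ * z → x = z := by
  have hinf : Infinite (K ⧸ N) := by
    rw [infinite_iff, hcard]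
    exact aleph0_le_mk G
  obtain ⟨H, hH, hHc⟩ := Pool.Agent.Lib.MP_af815a_al.Cent.exists_adm (G := K ⧸ N) (lam := lam)
    (by rw [hcard]; exact hlam) hmin
  have hinj : Function.Injective (fun q : K ⧸ N => ((Quotient.out q : K) : G)) := by
    intro a b hab
    have h1 : (Quotient.out a : K) = Quotient.out b := Subtype.ext hab
    rw [← QuotientGroup.out_eq' a, ← QuotientGroup.out_eq' b, h1]
  refine ⟨(fun q : K ⧸ N => ((Quotient.out q : K) : G)) '' H, ?_, ?_⟩
  · rw [mk_image_eq hinj, hHc, hcard]
  · rintro _ ⟨x, hx, rfl⟩ _ ⟨y, hy, rfl⟩ _ ⟨z, hz, rfl⟩ h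
    have h1 : (Quotient.out x : K)⁻¹ * Quotient.out y = (Quotient.out y)⁻¹ * Quotient.out z :=
      Subtype.ext h
    have h2 := congrArg (QuotientGroup.mk : K → K ⧸ N) h1
    rw [QuotientGroup.mk_mul, QuotientGroup.mk_mul, QuotientGroup.mk_inv, QuotientGroup.mk_inv,
      QuotientGroup.out_eq', QuotientGroup.out_eq', QuotientGroup.out_eq'] at h2
    rw [hH x hx y hy z hz h2]

end Pool.Agent.Results.MP_af815a_al.CentralizerCondition
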