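import Pool.Agent.Lib.MP_af815a_al.Generic

set_option autoImplicit false

/-!
# Consistency of a negative answer

There is a nonempty poset `P` of size at most `ℵ₁` with the countable chain condition which forces
that there is a locally finite group `G` with `ℵ₁` elements such that every subset `H` of `G` with
`ℵ₁` elements contains `x, y, z` with `x⁻¹ y = y⁻¹ z` and `x ≠ z`.  The group is the quotient
`F / N` of the free group `F` on a set `Ω` of size `ℵ₁` by a normal subgroup `N` of the extension.

A statement about the extension by `P` is given by its truth value, the predicate on `P` which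
says which conditions force it; `fNot`, `fImp`, `fAnd`, `fAll`, `fEx` are the clauses of the
forcing relation, `SetName` and `FunName` are the names of subsets of ground model sets and of
functions between ground model sets.  As `P` has the countable chain condition, `ℵ₁` is the same
cardinal in the extension, so `H` has size `ℵ₁` in the extension if and only if there is an
injection of `Ω` into `H`.  In particular ZFC does not prove that every infinite group `G` has a
subset `H` of the same size without such `x, y, z`, and neither does ZFC together with any value
of the continuum which is consistent, as a poset of size `ℵ₁` with the countable chain condition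
does not change the continuum.
-/

namespace Pool.Agent.Results.MP_af815a_al.LocallyFiniteForcing

open Cardinal Pool.Agent.MP_af815a_al

universe u

/-- There is a nonempty poset `P` of size at most `ℵ₁` with the countable chain condition and a
name `N` of a subset of the free group on `ℵ₁` generators, such that every condition forces:
`N` is a normal subgroup, the quotient is locally finite, the generators are pairwise different
modulo `N`, and every set `H` with `ℵ₁` many elements which are pairwise different modulo `N`
contains `x, y, z` with `x⁻¹ y = y⁻¹ z` and `x ≠ z` modulo `N`. -/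
theorem result (Ω : Type u) (hΩ : #Ω = ℵ₁) :
    ∃ (P : Type u) (_ : Preorder P) (N : SetName P (FreeGroup Ω)),
      Nonempty P ∧ #P ≤ ℵ₁ ∧ HasCC ℵ₁ P ∧ ∀ p : P,
        fNormal N p ∧ fLocFinite N p ∧ fDistinct N p ∧
          (fAll fun H : SetName P (FreeGroup Ω) => fImp (fLarge N H) (fSolution N H)) p := by
  classical
  obtain ⟨e⟩ : Nonempty (Ω ≃ (ℵ₁ : Cardinal.{u}).ord.ToType) := by
    rw [← Cardinal.eq, hΩ, Cardinal.mk_ord_toType]
  let _ : LinearOrder Ω := LinearOrder.lift' e e.injective
  have hI : ∀ i : Ω, (Set.Iio i).Countable := by
    intro i
    have h1 : (Set.Iio (e i)).Countable := by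
      rw [← Cardinal.le_aleph0_iff_set_countable, ← Order.lt_succ_iff, Cardinal.succ_aleph0]
      exact Cardinal.mk_Iio_toType_ord_lt (e i)
    have h2 : Set.Iio i = e ⁻¹' (Set.Iio (e i)) := rfl
    rw [h2]
    exact h1.preimage e.injective
  have : Uncountable Ω := by
    rw [← Cardinal.aleph0_lt_mk_iff, hΩ]
    exact Cardinal.aleph0_lt_aleph_one
  refine ⟨Cond Ω, inferInstance, Nname Ω, ⟨⟨∅, 0, fun _ => 1, fun _ _ => rfl, ?_⟩⟩,
    mk_Cond_le hΩ, hasCC_Cond hI, fun p => ⟨fNormal_Nname p, fLocFinite_Nname p,
      fDistinct_Nname p, fun H q _ hH => fSolution_of_fLarge hI H q hH⟩⟩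
  intro α hα
  exact absurd hα (Finset.notMem_empty α)

end Pool.Agent.Results.MP_af815a_al.LocallyFiniteForcing
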