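import Pool.Agent.Lib.MP_af815a_al.Singular

set_option autoImplicit false

/-!
Large admissible subsets in singular strong limit cardinality.
-/

namespace Pool.Agent.Results.MP_af815a_al.SingularStrongLimit

/-- Every subset `A` of a group such that the cardinality of `A` is a singular strong limit
cardinal contains an admissible subset `H` of the same cardinality as `A`. -/
theorem result {G : Type*} [Group G] (A : Set G) (hsl : (Cardinal.mk A).IsStrongLimit)
    (hsi : (Cardinal.mk A).IsSingular) :
    ∃ H ⊆ A, Cardinal.mk H = Cardinal.mk A ∧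
      ∀ x ∈ H, ∀ y ∈ H, ∀ z ∈ H, x⁻¹ * y = y⁻¹ * z → x = z :=
  Pool.Agent.Lib.MP_af815a_al.exists_admissible A hsl hsi

end Pool.Agent.Results.MP_af815a_al.SingularStrongLimit
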